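import Mathlib

/-! Values of completely additive functions at shifted primes, from the coloured theorem of
Maynard and Tao with the constant `18 / 5` (taken here as a hypothesis `CoreQ`). -/

set_option autoImplicit false

namespace Pool.Agent.Helper545x

open Finset Filter

open Classical in
/-- the coloured theorem for fixed forms `a i * n + b i` -/
def CoreQ : Prop :=
  ∀ T M : ℕ, 1 ≤ T → (18 / 5 : ℝ) * M < T →
    ∃ K : ℕ, 2 ≤ K ∧ ∀ (a b : Fin (T * K) → ℕ) (cl : Fin (T * K) → Fin T),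
      (∀ g, (univ.filter (fun i => cl i = g)).card = K) → (∀ i, 1 ≤ a i) → (∀ i, 1 ≤ b i) →
      (∀ i j, i ≠ j → a i * b j ≠ a j * b i) →
      (∀ p : ℕ, p.Prime → ∃ n : ℕ, ¬ p ∣ n ∧ ∀ i, ¬ p ∣ a i * n + b i) →
      ∀ η : ℝ, 0 < η → ∀ᶠ x : ℝ in atTop, x ^ (1 - η) ≤ (((Icc 1 ⌊x⌋₊).filter (fun n : ℕ =>
        M + 1 ≤ (univ.filter (fun g : Fin T => ∃ i, cl i = g ∧ (a i * n + b i).Prime)).card)).card
          : ℝ)

section addit

variable {H : Type} [AddCommGroup H] [Fintype H] {h : ℕ} {F : ℕ → H}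

/-- `F` is completely additive on the positive integers coprime to `h` -/
def Addi (h : ℕ) (F : ℕ → H) : Prop :=
  ∀ m n : ℕ, 1 ≤ m → 1 ≤ n → m.Coprime h → n.Coprime h → F (m * n) = F m + F n

omit [Fintype H] in
lemma Addi.one (hF : Addi h F) : F 1 = 0 := by
  have := hF 1 1 le_rfl le_rfl (Nat.coprime_one_left h) (Nat.coprime_one_left h)
  simpa using this

omit [Fintype H] in
lemma Addi.pow (hF : Addi h F) {n : ℕ} (hn : 1 ≤ n) (hc : n.Coprime h) (k : ℕ) :
    F (n ^ k) = k • F n := by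
  induction k with
  | zero => simp [hF.one]
  | succ k ih =>
    rw [pow_succ, hF _ _ (Nat.one_le_pow _ _ hn) hn (Nat.Coprime.pow_left k hc) hc, ih, succ_nsmul]

lemma Addi.surj (hF : Addi h F)
    (hgen : AddSubgroup.closure (F '' {n | 1 ≤ n ∧ n.Coprime h}) = ⊤) (v : H) :
    ∃ c : ℕ, 1 ≤ c ∧ c.Coprime h ∧ F c = v := by
  have hv : v ∈ AddSubgroup.closure (F '' {n | 1 ≤ n ∧ n.Coprime h}) := by
    rw [hgen]; trivial
  induction hv using AddSubgroup.closure_induction with
  | mem x hx =>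
    obtain ⟨n, ⟨h1, h2⟩, h3⟩ := hx
    exact ⟨n, h1, h2, h3⟩
  | zero => exact ⟨1, le_rfl, Nat.coprime_one_left h, hF.one⟩
  | add x y _ _ hx hy =>
    obtain ⟨m, h1, h2, h3⟩ := hx
    obtain ⟨n, h4, h5, h6⟩ := hy
    exact ⟨m * n, Nat.mul_pos h1 h4, Nat.Coprime.mul_left h2 h5, by rw [hF m n h1 h4 h2 h5, h3, h6]⟩
  | neg x _ hx =>
    obtain ⟨m, h1, h2, h3⟩ := hx
    have hT : 1 ≤ Fintype.card H := Fintype.card_pos
    refine ⟨m ^ (Fintype.card H - 1), Nat.one_le_pow _ _ h1, Nat.Coprime.pow_left _ h2, ?_⟩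
    rw [hF.pow h1 h2, h3]
    have h7 : (Fintype.card H - 1) • x + x = 0 := by
      rw [← succ_nsmul, Nat.sub_add_cancel hT]
      exact card_nsmul_eq_zero
    exact eq_neg_of_add_eq_zero_left h7

end addit

open Classical in
theorem shift_main (core : CoreQ) (h : ℕ) (hh : 1 ≤ h) (H : Type) [AddCommGroup H] [Fintype H]
    (F : ℕ → H) (hF : Addi h F)
    (hgen : AddSubgroup.closure (F '' {n | 1 ≤ n ∧ n.Coprime h}) = ⊤) (η : ℝ) (hη : 0 < η) :
    ∀ᶠ x : ℝ in atTop, (5 / 18 : ℝ) * Fintype.card H ≤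
      ((univ.filter (fun v : H => x ^ (1 - η) ≤
        (((Icc 1 ⌊x⌋₊).filter (fun p : ℕ => p.Prime ∧ h < p ∧ F (p - h) = v)).card : ℝ))).card
          : ℝ) := by
  set T := Fintype.card H with hT
  have hT1 : 1 ≤ T := Fintype.card_pos
  -- the number of classes
  obtain ⟨M, hM1, hM2⟩ : ∃ M : ℕ, (18 / 5 : ℝ) * M < T ∧ (5 / 18 : ℝ) * T ≤ M + 1 := by
    have h0 : (0 : ℝ) < (5 / 18 : ℝ) * T := by
      have : (1 : ℝ) ≤ T := by exact_mod_cast hT1
      linarith
    refine ⟨⌈(5 / 18 : ℝ) * T⌉₊ - 1, ?_, ?_⟩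
    · have h1 : 1 ≤ ⌈(5 / 18 : ℝ) * T⌉₊ := Nat.one_le_ceil_iff.2 h0
      have h2 := Nat.ceil_lt_add_one h0.le
      push_cast [Nat.cast_sub h1]
      linarith
    · have h1 : 1 ≤ ⌈(5 / 18 : ℝ) * T⌉₊ := Nat.one_le_ceil_iff.2 h0
      have h2 := Nat.le_ceil ((5 / 18 : ℝ) * T)
      push_cast [Nat.cast_sub h1]
      linarith
  obtain ⟨K, hK, hcore⟩ := core T M hT1 hM1
  -- the numbers
  set N0 := T * K + 1 with hN0
  set P : ℕ := ∏ p ∈ (Icc 1 N0).filter (fun p => p.Prime ∧ ¬ p ∣ h), p with hP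
  have hP1 : 1 ≤ P := by
    apply Nat.one_le_iff_ne_zero.2
    rw [hP, Finset.prod_ne_zero_iff]
    intro p hp
    exact (Finset.mem_filter.1 hp).2.1.ne_zero
  have hPc : P.Coprime h := by
    rw [hP]
    apply Nat.Coprime.prod_left
    intro p hp
    have := (Finset.mem_filter.1 hp).2
    exact (Nat.Prime.coprime_iff_not_dvd this.1).2 this.2
  have hPd : ∀ p : ℕ, p.Prime → p ≤ N0 → ¬ p ∣ h → p ∣ P := by
    intro p hp h1 h2
    rw [hP]
    exact Finset.dvd_prod_of_mem _ (Finset.mem_filter.2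
      ⟨Finset.mem_Icc.2 ⟨hp.one_lt.le, h1⟩, hp, h2⟩)
  let e : Fin T ≃ H := (Fintype.equivFin H).symm
  have hsurj := hF.surj hgen
  choose c hc1 hc2 hc3 using fun g : Fin T => hsurj (e g - F P)
  set B := h + 1 with hB
  have hBc : B.Coprime h := by
    rw [hB]; simp
  have hB1 : 1 ≤ B := by omega
  set D := B ^ T with hD
  have hDc : D.Coprime h := Nat.Coprime.pow_left _ hBc
  have hD2 : 2 ≤ D := by
    calc 2 ≤ B := by omega
      _ = B ^ 1 := (pow_one B).symm
      _ ≤ B ^ T := Nat.pow_le_pow_right (by omega) hT1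
  have hFD : F D = 0 := by
    rw [hD, hF.pow hB1 hBc]
    exact card_nsmul_eq_zero
  let pr : Fin (T * K) → Fin T × Fin K := fun i => finProdFinEquiv.symm i
  let a : Fin (T * K) → ℕ := fun i => P * c (pr i).1 * D ^ ((pr i).2 : ℕ)
  let cl : Fin (T * K) → Fin T := fun i => (pr i).1
  have hcl : ∀ g, (univ.filter (fun i => cl i = g)).card = K := by
    intro g
    have h1 : (univ.filter (fun i => cl i = g)) =
        (univ : Finset (Fin K)).image (fun k => finProdFinEquiv (g, k)) := by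
      ext i
      simp only [mem_filter, mem_univ, true_and, mem_image]
      constructor
      · intro hi
        refine ⟨(pr i).2, ?_⟩
        have : (g, (pr i).2) = pr i := by
          rw [← hi]
        rw [this]
        exact finProdFinEquiv.apply_symm_apply i
      · rintro ⟨k, hk⟩
        simp only [cl, pr]
        rw [← hk]
        simp
    rw [h1, Finset.card_image_of_injective]
    · simp
    · intro k k' hkk
      have := finProdFinEquiv.injective hkk
      simpa using this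
  have hac : ∀ i, (a i).Coprime h := by
    intro i
    exact Nat.Coprime.mul_left (Nat.Coprime.mul_left hPc (hc2 _)) (Nat.Coprime.pow_left _ hDc)
  have ha1 : ∀ i, 1 ≤ a i := by
    intro i
    exact Nat.mul_pos (Nat.mul_pos hP1 (hc1 _)) (pow_pos (by omega) _)
  have hFa : ∀ i, F (a i) = e (cl i) := by
    intro i
    show F (P * c (pr i).1 * D ^ ((pr i).2 : ℕ)) = _
    have hDp : 1 ≤ D ^ ((pr i).2 : ℕ) := Nat.one_le_pow _ _ (by omega)
    rw [hF _ _ (Nat.mul_pos hP1 (hc1 _)) hDp
      (Nat.Coprime.mul_left hPc (hc2 _)) (Nat.Coprime.pow_left _ hDc),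
      hF _ _ hP1 (hc1 _) hPc (hc2 _), hF.pow (by omega) hDc, hFD, hc3]
    simp [cl]
  have hainj : ∀ i j, i ≠ j → a i ≠ a j := by
    intro i j hij hE
    apply hij
    have h1 : cl i = cl j := by
      apply e.injective
      rw [← hFa, ← hFa, hE]
    have h2 : P * c (pr i).1 * D ^ ((pr i).2 : ℕ) = P * c (pr j).1 * D ^ ((pr j).2 : ℕ) := hE
    have h3 : (pr i).1 = (pr j).1 := h1
    rw [h3] at h2
    have h4 : D ^ ((pr i).2 : ℕ) = D ^ ((pr j).2 : ℕ) :=
      Nat.eq_of_mul_eq_mul_left (Nat.mul_pos hP1 (hc1 _)) h2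
    have h5 : ((pr i).2 : ℕ) = (pr j).2 := Nat.pow_right_injective hD2 h4
    have h6 : pr i = pr j := Prod.ext h3 (Fin.ext h5)
    exact finProdFinEquiv.symm.injective h6
  have hadm : ∀ p : ℕ, p.Prime → ∃ n : ℕ, ¬ p ∣ n ∧ ∀ i, ¬ p ∣ a i * n + h := by
    intro p hp
    by_cases hph : p ∣ h
    · refine ⟨1, hp.one_lt.ne' ∘ Nat.dvd_one.1, fun i hi => ?_⟩
      have h1 : p ∣ a i := by
        have := (Nat.dvd_add_left hph).1 hi
        simpa using this
      have h2 := Nat.dvd_gcd h1 hph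
      rw [hac i] at h2
      exact hp.one_lt.ne' (Nat.dvd_one.1 h2)
    · by_cases hpN : p ≤ N0
      · refine ⟨1, hp.one_lt.ne' ∘ Nat.dvd_one.1, fun i hi => ?_⟩
        have h1 : p ∣ a i * 1 := by
          rw [mul_one]
          exact Dvd.dvd.mul_right (Dvd.dvd.mul_right (hPd p hp hpN hph) _) _
        exact hph ((Nat.dvd_add_right h1).1 hi)
      · push Not at hpN
        have : Fact p.Prime := ⟨hp⟩
        let R : Finset (ZMod p) := insert 0 ((univ : Finset (Fin (T * K))).image
          (fun i => -(h : ZMod p) * ((a i : ℕ) : ZMod p)⁻¹))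
        have hR : R.card < Fintype.card (ZMod p) := by
          rw [ZMod.card]
          calc R.card ≤ ((univ : Finset (Fin (T * K))).image
              (fun i => -(h : ZMod p) * ((a i : ℕ) : ZMod p)⁻¹)).card + 1 := Finset.card_insert_le _ _
            _ ≤ T * K + 1 := by
              have := Finset.card_image_le (s := (univ : Finset (Fin (T * K))))
                (f := fun i => -(h : ZMod p) * ((a i : ℕ) : ZMod p)⁻¹)
              simp only [Finset.card_univ, Fintype.card_fin] at this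
              omega
            _ < p := hpN
        obtain ⟨r, hr⟩ : ∃ r, r ∉ R := by
          by_contra hcon
          push Not at hcon
          have : R = univ := Finset.eq_univ_iff_forall.2 hcon
          rw [this, Finset.card_univ] at hR
          exact lt_irrefl _ hR
        refine ⟨r.val, ?_, ?_⟩
        · intro h1
          apply hr
          have h2 : ((r.val : ℕ) : ZMod p) = 0 := (ZMod.natCast_eq_zero_iff _ _).2 h1
          rw [ZMod.natCast_zmod_val] at h2
          rw [h2]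
          exact Finset.mem_insert_self _ _
        · intro i hi
          apply hr
          have h2 : ((a i * r.val + h : ℕ) : ZMod p) = 0 := (ZMod.natCast_eq_zero_iff _ _).2 hi
          push_cast at h2
          rw [ZMod.natCast_zmod_val] at h2
          have h3 : ((a i : ℕ) : ZMod p) ≠ 0 := by
            intro h4
            rw [h4, zero_mul, zero_add] at h2
            exact hph ((ZMod.natCast_eq_zero_iff _ _).1 h2)
          apply Finset.mem_insert_of_mem
          rw [Finset.mem_image]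
          refine ⟨i, Finset.mem_univ _, ?_⟩
          have h5 : ((a i : ℕ) : ZMod p) * r = -(h : ZMod p) := eq_neg_of_add_eq_zero_left h2
          rw [← h5]
          field_simp
  have hmain := hcore a (fun _ => h) cl hcl ha1 (fun _ => hh)
    (fun i j hij hE => hainj i j hij (Nat.eq_of_mul_eq_mul_right (by omega) hE)) hadm (η / 2)
    (by linarith)
  -- the scale
  set A : ℕ := ∑ i, a i + 1 with hA
  have haA : ∀ i, a i ≤ A := by
    intro i
    have h1 : a i ≤ ∑ i, a i :=
      Finset.single_le_sum (f := fun i => a i) (fun j _ => Nat.zero_le _) (Finset.mem_univ i)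
    omega
  have hA0 : (0 : ℝ) < 2 * (A : ℝ) := by positivity
  have htend : Tendsto (fun X : ℝ => X / (2 * (A : ℝ))) atTop atTop :=
    Filter.tendsto_id.atTop_div_const hA0
  have hmain2 := htend.eventually hmain
  have hgrow : ∀ᶠ X : ℝ in atTop,
      ((T * K * T : ℕ) : ℝ) * X ^ (1 - η) < (X / (2 * (A : ℝ))) ^ (1 - η / 2) := by
    have h1 : Tendsto (fun X : ℝ => X ^ (η / 2)) atTop atTop := tendsto_rpow_atTop (by linarith)
    filter_upwards [h1.eventually_gt_atTop (((T * K * T : ℕ) : ℝ) * (2 * (A : ℝ)) ^ (1 - η / 2)),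
      eventually_gt_atTop (0 : ℝ)] with X hX hX0
    rw [Real.div_rpow hX0.le hA0.le, lt_div_iff₀ (Real.rpow_pos_of_pos hA0 _)]
    have h2 : X ^ (1 - η / 2) = X ^ (1 - η) * X ^ (η / 2) := by
      rw [← Real.rpow_add hX0]; congr 1; ring
    rw [h2]
    have h3 : 0 < X ^ (1 - η) := Real.rpow_pos_of_pos hX0 _
    nlinarith
  filter_upwards [hmain2, hgrow, eventually_ge_atTop (2 * (h : ℝ) + 2)] with X hX1 hX2 hX3
  by_contra hcon
  push Not at hcon
  set cnt : H → Finset ℕ := fun v =>
    (Icc 1 ⌊X⌋₊).filter (fun p : ℕ => p.Prime ∧ h < p ∧ F (p - h) = v) with hcnt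
  set Gd : Finset H := univ.filter (fun v : H => X ^ (1 - η) ≤ ((cnt v).card : ℝ)) with hGd
  have hGdc : Gd.card < M + 1 := by
    have : ((Gd.card : ℕ) : ℝ) < (M : ℝ) + 1 := lt_of_lt_of_le hcon hM2
    exact_mod_cast this
  set Sg : Finset ℕ := (Icc 1 ⌊X / (2 * (A : ℝ))⌋₊).filter (fun n : ℕ =>
        M + 1 ≤ (univ.filter (fun g : Fin T => ∃ i, cl i = g ∧ (a i * n + h).Prime)).card) with hSg
  have hX0 : 0 < X := by
    have : (0 : ℝ) ≤ h := Nat.cast_nonneg _
    linarith
  have hsub : Sg ⊆ (univ : Finset (Fin (T * K))).biUnion (fun i => (univ \ Gd).biUnion (fun v =>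
      (Icc 1 ⌊X / (2 * (A : ℝ))⌋₊).filter (fun n => a i * n + h ∈ cnt v))) := by
    intro n hn
    obtain ⟨hn1, hn2⟩ := Finset.mem_filter.1 hn
    have hn3 := Finset.mem_Icc.1 hn1
    -- some class is bad
    obtain ⟨g, hg1, hg2⟩ : ∃ g ∈ (univ.filter (fun g : Fin T => ∃ i, cl i = g ∧
        (a i * n + h).Prime)), e g + F n ∉ Gd := by
      by_contra hcon2
      push Not at hcon2
      have h1 : ((univ.filter (fun g : Fin T => ∃ i, cl i = g ∧ (a i * n + h).Prime)).image
          (fun g => e g + F n)).card ≤ Gd.card := by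
        apply Finset.card_le_card
        intro v hv
        obtain ⟨g, hg, rfl⟩ := Finset.mem_image.1 hv
        exact hcon2 g hg
      rw [Finset.card_image_of_injective] at h1
      · omega
      · intro g g' hgg
        exact e.injective (add_right_cancel hgg)
    obtain ⟨i, hi1, hi2⟩ := (Finset.mem_filter.1 hg1).2
    have hn0 : 1 ≤ n := hn3.1
    have hcop : n.Coprime h := by
      by_contra hcon3
      obtain ⟨q, hq, hq1, hq2⟩ := Nat.Prime.not_coprime_iff_dvd.1 hcon3
      have h1 : q ∣ a i * n + h := dvd_add (Dvd.dvd.mul_left hq1 _) hq2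
      have h2 := (Nat.prime_dvd_prime_iff_eq hq hi2).1 h1
      have h3 : q ≤ h := Nat.le_of_dvd (by omega) hq2
      have h4 : 1 ≤ a i * n := Nat.mul_pos (ha1 i) hn0
      omega
    rw [Finset.mem_biUnion]
    refine ⟨i, Finset.mem_univ _, ?_⟩
    rw [Finset.mem_biUnion]
    refine ⟨e g + F n, Finset.mem_sdiff.2 ⟨Finset.mem_univ _, hg2⟩, ?_⟩
    rw [Finset.mem_filter]
    refine ⟨hn1, ?_⟩
    rw [hcnt]
    simp only
    rw [Finset.mem_filter, Finset.mem_Icc]
    refine ⟨⟨by omega, ?_⟩, hi2, ?_, ?_⟩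
    · apply Nat.le_floor
      have h5 : (n : ℝ) ≤ X / (2 * (A : ℝ)) := by
        have h6 := (Nat.le_floor_iff (by positivity : (0 : ℝ) ≤ X / (2 * (A : ℝ)))).1 hn3.2
        exact h6
      have h7 : (a i : ℝ) ≤ A := by exact_mod_cast haA i
      push_cast
      have h8 : (a i : ℝ) * n ≤ A * (X / (2 * (A : ℝ))) :=
        mul_le_mul h7 h5 (Nat.cast_nonneg _) (Nat.cast_nonneg _)
      have h9 : (A : ℝ) * (X / (2 * (A : ℝ))) = X / 2 := by
        have : (A : ℝ) ≠ 0 := by positivity
        field_simp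
      rw [h9] at h8
      linarith
    · have h4 : 1 ≤ a i * n := Nat.mul_pos (ha1 i) hn0
      omega
    · rw [Nat.add_sub_cancel, hF _ _ (ha1 i) hn0 (hac i) hcop, hFa, hi1]
  have hcard : (Sg.card : ℝ) ≤ ((T * K * T : ℕ) : ℝ) * X ^ (1 - η) := by
    have h1 : Sg.card ≤ ∑ i : Fin (T * K), ∑ v ∈ univ \ Gd,
        ((Icc 1 ⌊X / (2 * (A : ℝ))⌋₊).filter (fun n => a i * n + h ∈ cnt v)).card := by
      refine (Finset.card_le_card hsub).trans (Finset.card_biUnion_le.trans ?_)
      exact Finset.sum_le_sum fun i _ => Finset.card_biUnion_le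
    have h2 : ∀ i : Fin (T * K), ∀ v : H,
        ((Icc 1 ⌊X / (2 * (A : ℝ))⌋₊).filter (fun n => a i * n + h ∈ cnt v)).card ≤
          (cnt v).card := by
      intro i v
      apply Finset.card_le_card_of_injOn (fun n => a i * n + h)
      · intro n hn
        exact (Finset.mem_filter.1 hn).2
      · intro n _ m _ hnm
        have h3 : a i * n = a i * m := by
          simpa using hnm
        exact Nat.eq_of_mul_eq_mul_left (ha1 i) h3
    have h3 : (Sg.card : ℝ) ≤ ∑ i : Fin (T * K), ∑ v ∈ univ \ Gd, X ^ (1 - η) := by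
      refine (Nat.cast_le.2 h1).trans ?_
      push_cast
      apply Finset.sum_le_sum
      intro i _
      apply Finset.sum_le_sum
      intro v hv
      have h4 : v ∉ Gd := (Finset.mem_sdiff.1 hv).2
      rw [hGd, Finset.mem_filter] at h4
      push Not at h4
      have h5 := h4 (Finset.mem_univ _)
      have h6 : (((Icc 1 ⌊X / (2 * (A : ℝ))⌋₊).filter (fun n => a i * n + h ∈ cnt v)).card : ℝ) ≤
          ((cnt v).card : ℝ) := by exact_mod_cast h2 i v
      linarith
    refine h3.trans ?_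
    rw [Finset.sum_const, Finset.sum_const, Finset.card_univ, Fintype.card_fin, nsmul_eq_mul,
      nsmul_eq_mul, ← mul_assoc]
    have h7 : ((univ \ Gd).card : ℝ) ≤ T := by
      have : (univ \ Gd).card ≤ (univ : Finset H).card := Finset.card_le_card Finset.sdiff_subset
      rw [Finset.card_univ] at this
      exact_mod_cast this
    have h8 : 0 ≤ X ^ (1 - η) := (Real.rpow_pos_of_pos hX0 _).le
    push_cast
    apply mul_le_mul_of_nonneg_right _ h8
    exact mul_le_mul_of_nonneg_left h7 (by positivity)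
  linarith

end Pool.Agent.Helper545x
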